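import Mathlib
import Pool.Agent.TH394.HadCheck

set_option autoImplicit false

namespace Pool.Agent.Helper28H.N1123

open Pool.Agent.TH394

/-- the sequences -/
def Q : ℕ :=
  0x6e088964fc303e85f7f30d8be4c801086383e3edd9533436693fb9943986cbfc3e340ccc78443983c33078fe66353e78ce098e1f86369c959e3044fe93e667736c38fc4f0b7389338304654f8d69c1ce837e8e4b638ce7e90ec03418ccc9c3d19968d9fc6c09c637c1b8cd3f09991068b0394d6bc5953348561d88188f63339d88e3c494e3033f3fe936c36d844693d381cc8935f0f85f8f94b36e9c0936b369648d03593cc975069e7c84636913d9b9bb483309833f668c93b363d9e9dc93369936ff44e3403f39ff9399d909fe8c9393b6960163c33e034b3c4676f63b8ffc966b933985036e36030836c89664ff74480f46d39c443681c463b8fcee0c96730451f84339cf409558343993f33f3637f9306438891c8f73f1651fcf6666e39691563343d1d09de8f7799f8c68dff1f7f96586ce00c86c69fbf636fec6633e193ef581e3393c88393e9349697308d9c890c813c334858ebdce69066c33f9963c3686cf446e03993011664d9f60fe1183003d66c36003333c39c63383d69e36fecc0c938f9333ffc5499e759bc6978e36f3933c3d69b0436cf9468738e47396ccf6d3d68ef6388b96904d833e64f9eb346f3686891f6ff33f87fe6d767cc33f939c389f6609163c6cfc583b9ec8b893f869f38b9ccc3fe3ec499050cf83cf03053f0cfb033f8e73fe86336f35ce8ec1f6c93558943641ff930979b983964f030e4b650876330435966c6693eff5cbc9e848c4cc3f96f06c869396fd67933064836339fefbe0cf3e3151764693c4f393fe43f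

set_option maxRecDepth 100000 in
theorem check : checkA (Fin 1123) Q 1123 = true := by decide +kernel

theorem had : HadOrder 4492 :=
  hadamard_checkA (Fin 1123) Q 1123 (by simp) check

end Pool.Agent.Helper28H.N1123
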