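import Mathlib
import Pool.Agent.TH394.HadCheck

set_option autoImplicit false

namespace Pool.Agent.Helper28H.N1483

open Pool.Agent.TH394

/-- the sequences -/
def Q : ℕ :=
  0xb0f98f5380fbdac618a4dc836f4bcbc95ee06be63dd63803596fbcd0db166d104ab8486486309806956f0d3336c05485fbd0b33b30bbdf39df363e83666d6e9f1c9bb3386c68b3b6356c65d9b068e4fc133be63f19ef96946569bd34f16668bb8c956d6f0334889304b996366fffc8036f3f5653d498b548b3bc56df3cd8d3fcce0b33d0856333905c4b33c0161845b65551ec0d133b6d03f06f0390b806dfed6e5636e588cc066b4ee3383f30a9830cb3bbfc00559da8f63c5e1c869350b035c06663bab39fccccc48344bc558583f39fec86630003c443b66fec3b86558496469f166bf1f95bb8bf6cf038563186456668d35d31ccfd3fc8cd3fb86d661b663d58f45653a6bf0990ba46558435f0c4413d0c46855836548e634eb5ccbaf36cbacb0afeb86d699d5ea884f55cbfb4d60cc903fc3fb4b3b4c6b869c66d4b685d993801d96339d84a58a856ad1f39b3b39c38589635d8c3cbd34f6bb0b8e6894b53f4f565cc1d698fba6a80ff0bf55fc6b8061ad8be0d455ce3346b1413c983cadd5453f3b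336804b9368e0cf66cd6d963b460505b6bc536bcac1d59195160c65606ca80b686309c6640f84983d6c0cf8c6dcf68bd8466833f553fbb1b56680c90cbc138b1ef9b313bb5ebf50bb65d6b5303fb6cbaf6f6430fb33061e38863c4163336305cfd3ca4d639e3bcdbb4f64fbabc5b6bd335f90a0339f63b93eb38363a4cd4a480f466b53dbc5db49035fff53630430bbc66c0b5b55bcf66b6bdffd365c1e03dd3f5b8c33f80bfab5d593b1665568fc88fcb800616b4b060bbfc346fd005b4b45b4cb4c980338f6cd8c03608f5ac8fba5350c5fba3a3d563ff5366f6959860b33bfd40c06f53c05fc53b65306f65345403903bd4c393f3683f6b8bbffb3c06358d98e9d90ac65c8603df8463b8a400b800af36b9d6e8c33f056985393b09bb8e8bac8b069035bbf30368536338fc5fc6c8c30653f46f06839380306860b630f0c1f6ac93a3686be4d636390dc669be93bb56f3bef34b0dc619a4b16cc300549838ee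

set_option maxRecDepth 100000 in
theorem check : checkA (Fin 1483) Q 1483 = true := by decide +kernel

theorem had : HadOrder 5932 :=
  hadamard_checkA (Fin 1483) Q 1483 (by simp) check

end Pool.Agent.Helper28H.N1483
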